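import Pool.Agent.Helper88.TU.Size
import Pool.Agent.Helper49.GM.TS
import Pool.Agent.Helper31.RR.CB
import Pool.Agent.Helper42.PP.TRE
import Pool.Agent.Helper96.GM.TR

/-! The second moment of a function given by labels, with relative errors. -/

set_option autoImplicit false

open Finset Filter Topology

open scoped Classical

namespace Pool.Agent.Helper16.TU

open Pool.Agent.Helper88.PP (pr Rg om Sf SS uu vv ee LA VV QQ cost nc dd)

open Pool.Agent.Helper88.RR (gg ab TB WB nz wb DB Db VM GB)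

open Pool.Agent.Helper88.GM (In NI XI)

open Pool.Agent.Helper88.TU

open Pool.Agent.Helper77.RR (VM_nonneg ab_nonneg expo)

open Pool.Agent.Helper3.PP (om_nonneg VV_nonneg mem_SS mem_LA LA_sub sumBB)

open Pool.Agent.Helper49.GM (XI_nonneg)

/-- from sets of points to divisor label functions -/
theorem tlg {y z K D : ℕ} {P N : Finset ℕ} {δ Y : ℝ} (hδ : 0 ≤ δ) (hY : 0 ≤ Y) (hP : P ⊆ Icc 1 y)
    (h : ∀ B : Finset ℕ, B ⊆ Icc 1 y → B.card ≤ K → ∀ d : ℕ → ℕ, (∀ i ∈ B, Sf z (d i)) →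
      ∏ i ∈ B, d i ≤ D →
      ((∀ i ∈ B, ∀ j ∈ B, i ≠ j → Nat.Coprime (d i) (d j)) →
        |((N.filter (fun n => ∀ i ∈ B, d i ∣ n + i ∧ Rg y z (n + i))).card : ℝ)
          - Y * (gg y z B.card * ∏ i ∈ B, (1 / (d i : ℝ)))|
          ≤ δ * (Y * (gg y z B.card * ∏ i ∈ B, (1 / (d i : ℝ)))))
      ∧ (¬ (∀ i ∈ B, ∀ j ∈ B, i ≠ j → Nat.Coprime (d i) (d j)) →
        (N.filter (fun n => ∀ i ∈ B, d i ∣ n + i ∧ Rg y z (n + i))).card = 0))
    (d : P → ℕ) (hd : ∀ i, d i = 0 ∨ Sf z (d i)) (hD : ∏ i, max 1 (d i) ≤ D)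
    (hK : (univ.filter (fun i => d i ≠ 0)).card ≤ K)
    (hg : ∀ k, k ≤ K → gg y z k ≤ om y z ^ k) :
    ((∀ i j, i ≠ j → d i ≠ 0 → d j ≠ 0 → Nat.Coprime (d i) (d j)) →
      |((N.filter (fun n => ∀ i, d i ≠ 0 → d i ∣ n + (i : ℕ) ∧
          Rg y z (n + (i : ℕ)))).card : ℝ)
        - Y * (gg y z (univ.filter (fun i => d i ≠ 0)).card *
          ∏ i, (if d i = 0 then 1 else 1 / (d i : ℝ)))|
        ≤ δ * (Y * ∏ i, dd (om y z) (d i)))
    ∧ (¬ (∀ i j, i ≠ j → d i ≠ 0 → d j ≠ 0 → Nat.Coprime (d i) (d j)) →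
      (N.filter (fun n => ∀ i, d i ≠ 0 → d i ∣ n + (i : ℕ) ∧
        Rg y z (n + (i : ℕ)))).card = 0) := by
  set B : Finset ℕ := (univ.filter (fun i => d i ≠ 0)).image (fun i : P => (i : ℕ)) with hB
  have hBm : B = (univ.filter (fun i => d i ≠ 0)).map
    ⟨fun i : P => (i : ℕ), Subtype.val_injective⟩ := by
    rw [hB, Finset.map_eq_image]
    rfl
  set d' : ℕ → ℕ := fun i => if h : i ∈ P then d ⟨i, h⟩ else 1 with hd'
  have hdd : ∀ i : P, d' i = d i := by
    intro i
    rw [hd']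
    simp
  have hmem : ∀ i : ℕ, i ∈ B ↔ ∃ j : P, d j ≠ 0 ∧ (j : ℕ) = i := by
    intro i
    rw [hB, Finset.mem_image]
    constructor
    · rintro ⟨j, hj, hj'⟩
      exact ⟨j, (Finset.mem_filter.mp hj).2, hj'⟩
    · rintro ⟨j, hj, hj'⟩
      exact ⟨j, Finset.mem_filter.mpr ⟨Finset.mem_univ _, hj⟩, hj'⟩
  have hall : ∀ p : ℕ → Prop, (∀ i ∈ B, p i) ↔ ∀ j : P, d j ≠ 0 → p (j : ℕ) := by
    intro p
    constructor
    · intro hp j hj
      exact hp _ ((hmem _).mpr ⟨j, hj, rfl⟩)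
    · intro hp i hi
      obtain ⟨j, hj, rfl⟩ := (hmem _).mp hi
      exact hp j hj
  have hprod : ∀ (M : Type) [CommMonoid M] (f : ℕ → M), ∏ i ∈ B, f i =
      ∏ i : P, if d i ≠ 0 then f i else 1 := by
    intro M _ f
    rw [hBm, Finset.prod_map, Finset.prod_filter]
    rfl
  have hcop : (∀ i ∈ B, ∀ j ∈ B, i ≠ j → Nat.Coprime (d' i) (d' j)) ↔
      (∀ i j, i ≠ j → d i ≠ 0 → d j ≠ 0 → Nat.Coprime (d i) (d j)) := by
    rw [hall]
    constructor
    · intro h1 i j hij hi hj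
      have h2 := (hall _).mp (h1 i hi) j hj (fun h3 => hij (Subtype.ext h3))
      rwa [hdd, hdd] at h2
    · intro h1 i hi
      rw [hall]
      intro j hj hij
      rw [hdd, hdd]
      exact h1 i j (fun h3 => hij (by rw [h3])) hi hj
  have hfil : N.filter (fun n => ∀ i ∈ B, d' i ∣ n + i ∧ Rg y z (n + i)) =
      N.filter (fun n => ∀ i, d i ≠ 0 → d i ∣ n + (i : ℕ) ∧ Rg y z (n + (i : ℕ))) := by
    refine Finset.filter_congr fun n _ => ?_
    rw [hall]
    refine forall_congr' fun j => ?_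
    rw [hdd]
  have hpr : ∏ i ∈ B, (om y z / (d' i : ℝ)) ≤ ∏ i, dd (om y z) (d i) := by
    rw [hprod]
    have ho := om_nonneg y z
    refine Finset.prod_le_prod (fun i _ => ?_) (fun i _ => ?_)
    · split_ifs <;> positivity
    · rw [hdd]
      unfold dd
      by_cases hi : d i = 0
      · simp [hi]
      · rw [if_pos hi, if_neg hi]
  have hpr1 : ∏ i ∈ B, (1 / (d' i : ℝ)) = ∏ i, (if d i = 0 then 1 else 1 / (d i : ℝ)) := by
    rw [hprod]
    refine Finset.prod_congr rfl fun i _ => ?_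
    rw [hdd]
    by_cases hi : d i = 0 <;> simp [hi]
  have hsub : B ⊆ Icc 1 y := by
    intro i hi
    obtain ⟨j, _, rfl⟩ := (hmem _).mp hi
    exact hP j.2
  have hcard : B.card ≤ K := by
    rw [hBm, Finset.card_map]
    exact hK
  have hsf : ∀ i ∈ B, Sf z (d' i) := by
    rw [hall]
    intro j hj
    rw [hdd]
    exact (hd j).resolve_left hj
  have hle : ∏ i ∈ B, d' i ≤ D := by
    rw [hprod]
    refine le_of_eq_of_le (Finset.prod_congr rfl fun i _ => ?_) hD
    rw [hdd]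
    by_cases hi : d i = 0
    · simp [hi]
    · rw [if_pos hi]
      exact (max_eq_right (by omega)).symm
  have hcard2 : B.card = (univ.filter (fun i => d i ≠ 0)).card := by
    rw [hBm, Finset.card_map]
  have hpr2 : gg y z B.card * ∏ i ∈ B, (1 / (d' i : ℝ)) ≤ ∏ i, dd (om y z) (d i) := by
    refine le_trans ?_ hpr
    have h1 : ∏ i ∈ B, (om y z / (d' i : ℝ)) = om y z ^ B.card * ∏ i ∈ B, (1 / (d' i : ℝ)) := by
      rw [← Finset.prod_const, ← Finset.prod_mul_distrib]
      refine Finset.prod_congr rfl fun i _ => ?_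
      ring
    rw [h1]
    refine mul_le_mul_of_nonneg_right (hg _ hcard) (Finset.prod_nonneg fun i _ => ?_)
    positivity
  have key := h B hsub hcard d' hsf hle
  rw [hcop, hfil] at key
  refine ⟨fun hc => ?_, key.2⟩
  have k1 := key.1 hc
  have k2 : δ * (Y * (gg y z B.card * ∏ i ∈ B, (1 / (d' i : ℝ)))) ≤
      δ * (Y * ∏ i, dd (om y z) (d i)) :=
    mul_le_mul_of_nonneg_left (mul_le_mul_of_nonneg_left hpr2 hY) hδ
  have k3 := k1.trans k2
  rw [hpr1, hcard2] at k3
  exact k3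


/-- the exponential bound, with fourth powers -/
theorem expo4 (c L : ℝ) (hc : 0 < c) (hL : 0 ≤ L) :
    ∃ E1 : ℕ, ∀ E K : ℕ, E1 ≤ E → K ^ 3 ≤ E →
      (1 + 36 * (E : ℝ)) * ((1 + L * (E : ℝ) ^ 3) ^ 4 *
        (1 + (E : ℝ) ^ 2 * (L * (E : ℝ) ^ 3)) ^ (2 * K)) ≤ Real.exp (c * E) := by
  obtain ⟨E1, h1⟩ := expo (c / 4) L (by positivity) hL
  refine ⟨E1, fun E K hE hK => ?_⟩
  have h2 := h1 E K hE hK
  set a : ℝ := 1 + 36 * (E : ℝ) with ha
  set b : ℝ := 1 + L * (E : ℝ) ^ 3 with hb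
  set w : ℝ := (1 + (E : ℝ) ^ 2 * (L * (E : ℝ) ^ 3)) ^ (2 * K) with hw
  have ha1 : 1 ≤ a := by
    rw [ha]
    have : (0 : ℝ) ≤ E := Nat.cast_nonneg _
    linarith
  have hb1 : 1 ≤ b := by
    rw [hb]
    have : 0 ≤ L * (E : ℝ) ^ 3 := by positivity
    linarith
  have hw1 : 1 ≤ w := by
    rw [hw]
    refine one_le_pow₀ ?_
    have : 0 ≤ (E : ℝ) ^ 2 * (L * (E : ℝ) ^ 3) := by positivity
    linarith
  have h3 : (a * (b * w)) ^ 4 ≤ Real.exp (c / 4 * E) ^ 4 := pow_le_pow_left₀ (by positivity) h2 4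
  have h4 : Real.exp (c / 4 * E) ^ 4 = Real.exp (c * E) := by
    rw [← Real.exp_nat_mul]
    congr 1
    push_cast
    ring
  rw [h4] at h3
  refine le_trans ?_ h3
  have h5 : (a * (b * w)) ^ 4 = a ^ 4 * (b ^ 4 * w ^ 4) := by ring
  rw [h5]
  have h6 : a ≤ a ^ 4 := le_self_pow₀ ha1 (by norm_num)
  have h7 : w ≤ w ^ 4 := le_self_pow₀ hw1 (by norm_num)
  gcongr

theorem tg : StmtTL → StmtTG := by
  intro h1
  have h2 : Pool.Agent.Helper88.GM.StmtTR := Pool.Agent.Helper96.GM.tr Pool.Agent.Helper42.PP.tre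
  have h3 : Pool.Agent.Helper88.RR.StmtCB := Pool.Agent.Helper31.RR.cb
  obtain ⟨Es, hsize⟩ := size
  obtain ⟨Eg, hsgg⟩ := size_gg 1 one_pos
  obtain ⟨c, hc, ETL, hTL⟩ := h1
  obtain ⟨_, C', _, hC', h4⟩ := Pool.Agent.Helper24.PP.ma
  obtain ⟨C, hC, hCB⟩ := h3
  set C2 : ℝ := C + 1 with hC2
  have hC2C : C ≤ C2 := by rw [hC2]; linarith
  have hC21 : 1 ≤ C2 := by linarith
  set c0 : ℝ := min c 1 / 2 with hc0
  have hc0p : 0 < c0 := by
    rw [hc0]
    have := lt_min hc one_pos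
    linarith only [this]
  have hc1 : 2 * c0 ≤ c := by
    rw [hc0]
    have := min_le_left c 1
    linarith only [this]
  have hc2 : 2 * c0 ≤ 1 := by
    rw [hc0]
    have := min_le_right c 1
    linarith only [this]
  obtain ⟨Ee, hEe⟩ := expo4 c0 (3 * C2 ^ 2 * C' ^ 3) hc0p (by positivity)
  refine ⟨c0, hc0p, max ETL (max Ee (max 64 (max Es Eg))),
    fun E z x y hE hS u v Q b hIn m q K wF hm hqm hV hK hw1 hw2 P hPy hPA
    T cc F G0 hF hG0c hFG hT1 hT2 hT2' hT3 hT4 hT5 => ?_⟩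
  have hE1 : ETL ≤ E := (le_max_left _ _).trans hE
  have hE3 : Ee ≤ E := ((le_max_left _ _).trans (le_max_right _ _)).trans hE
  have hE4 : 64 ≤ E := ((le_max_left _ _).trans ((le_max_right _ _).trans (le_max_right _ _))).trans hE
  have hE5 : Es ≤ E := ((le_max_left _ _).trans ((le_max_right _ _).trans ((le_max_right _ _).trans
    (le_max_right _ _)))).trans hE
  have hE6 : Eg ≤ E := ((le_max_right _ _).trans ((le_max_right _ _).trans ((le_max_right _ _).trans
    (le_max_right _ _)))).trans hE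
  have hM1 : 1 ≤ E / 16 := by omega
  have hEpos : (64 : ℝ) ≤ E := by exact_mod_cast hE4
  have hTL := hTL E z x y hE1 hS u v Q b hIn
  obtain ⟨-, -, -, -, -, -, -, -, hyz, -, -, -, -, -⟩ := hsize E z x y hE5 hS
  obtain ⟨-, hggk⟩ := hsgg E z x y hE6 hS
  -- `z`
  have hzE : Real.exp E ≤ z := hS.1
  have hzE' : (E : ℝ) + 1 ≤ z := (Real.add_one_le_exp _).trans hzE
  have hzE2 : E + 1 ≤ z := by exact_mod_cast hzE'
  have hz3 : 2 ≤ z := by omega
  have hz0 : 1 ≤ z := by omega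
  have hzp : (0 : ℝ) < z := by linarith only [hc0p, hc2, hEpos, hzE']
  have hK2 : (2 * K) ^ 2 ≤ E := by
    rcases le_total 4 K with h | h
    · calc (2 * K) ^ 2 = 4 * K ^ 2 := by ring
        _ ≤ K * K ^ 2 := Nat.mul_le_mul_right _ h
        _ = K ^ 3 := by ring
        _ ≤ E := hK
    · have h5 : K ^ 2 ≤ 4 ^ 2 := Nat.pow_le_pow_left h 2
      calc (2 * K) ^ 2 = 4 * K ^ 2 := by ring
        _ ≤ 4 * 4 ^ 2 := Nat.mul_le_mul_left _ h5
        _ ≤ E := by omega
  have ho := om_nonneg y z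
  have hgg : ∀ k : ℕ, k ≤ 2 * K → 0 ≤ gg y z k ∧ gg y z k ≤ om y z ^ k := by
    intro k hk
    obtain ⟨g1, g2, _⟩ := hggk k ((Nat.pow_le_pow_left hk 2).trans hK2)
    exact ⟨(Real.exp_pos _).le.trans g1, g2⟩
  have hMz : E / 16 ≤ z := by omega
  have hCBa := hCB m q (E / 16) z hm hz3 hMz hV
  have hCBb := hCB m q wF z hm hz3 (by omega) hV
  have hKsq : (36 : ℝ) * (K : ℝ) ^ 2 ≤ 36 * E := by
    have h5 : (K : ℝ) ^ 2 ≤ E := by
      have : K ^ 2 ≤ E := by nlinarith only [hE4, hK2]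
      exact_mod_cast this
    linarith only [h5]
  -- constants
  set Lam : ℝ := 3 * C2 ^ 2 * (C' * ((2 * (E / 16) : ℕ) : ℝ)) ^ 3 with hLam
  have hLam0 : 0 ≤ Lam := by positivity
  have hLamE : Lam ≤ 3 * C2 ^ 2 * C' ^ 3 * (E : ℝ) ^ 3 := by
    rw [hLam]
    have h5 : ((2 * (E / 16) : ℕ) : ℝ) ≤ E := by
      have : 2 * (E / 16) ≤ E := by omega
      exact_mod_cast this
    calc 3 * C2 ^ 2 * (C' * ((2 * (E / 16) : ℕ) : ℝ)) ^ 3
        ≤ 3 * C2 ^ 2 * (C' * (E : ℝ)) ^ 3 := by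
          gcongr
      _ = 3 * C2 ^ 2 * C' ^ 3 * (E : ℝ) ^ 3 := by ring
  set G : ℝ := (1 + Lam) ^ 4 * (1 + (E : ℝ) ^ 2 * Lam) ^ (2 * K) with hG
  have hG0 : 0 ≤ G := by positivity
  have hGE : (1 + 36 * (E : ℝ)) * G ≤ Real.exp (c0 * E) := by
    refine le_trans ?_ (hEe E K hE3 hK)
    rw [hG]
    gcongr
  have hfin : (Real.exp (-(c * E)) + 9 * ((2 * K : ℕ) : ℝ) ^ 2 / z) * G
      ≤ Real.exp (-(c0 * E)) := by
    have h5 : Real.exp (-(c * E)) ≤ Real.exp (-(2 * c0 * E)) := by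
      refine Real.exp_le_exp.mpr ?_
      have := mul_le_mul_of_nonneg_right hc1 (by linarith only [hc0p, hc2, hEpos] : (0 : ℝ) ≤ E)
      linarith only [this]
    have h6 : 9 * ((2 * K : ℕ) : ℝ) ^ 2 / z ≤ 36 * E * Real.exp (-(2 * c0 * E)) := by
      have h7 : 9 * ((2 * K : ℕ) : ℝ) ^ 2 = 36 * (K : ℝ) ^ 2 := by
        push_cast
        ring
      rw [h7, div_le_iff₀ hzp]
      have h8 : (1 : ℝ) ≤ Real.exp (-(2 * c0 * E)) * z := by
        calc (1 : ℝ) = Real.exp (-(E : ℝ)) * Real.exp E := by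
              rw [← Real.exp_add, neg_add_cancel, Real.exp_zero]
          _ ≤ Real.exp (-(2 * c0 * E)) * z := by
              refine mul_le_mul ?_ hzE (Real.exp_pos _).le (Real.exp_pos _).le
              refine Real.exp_le_exp.mpr ?_
              have := mul_le_mul_of_nonneg_right hc2 (by linarith only [hc0p, hc2, hEpos] : (0 : ℝ) ≤ E)
              linarith only [this]
      calc 36 * (K : ℝ) ^ 2 ≤ 36 * E := hKsq
        _ = 36 * E * 1 := by ring
        _ ≤ 36 * E * (Real.exp (-(2 * c0 * E)) * z) :=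
            mul_le_mul_of_nonneg_left h8 (by positivity)
        _ = 36 * E * Real.exp (-(2 * c0 * E)) * z := by ring
    calc (Real.exp (-(c * E)) + 9 * ((2 * K : ℕ) : ℝ) ^ 2 / z) * G
        ≤ (Real.exp (-(2 * c0 * E)) + 36 * E * Real.exp (-(2 * c0 * E))) * G :=
          mul_le_mul_of_nonneg_right (add_le_add h5 h6) hG0
      _ = Real.exp (-(2 * c0 * E)) * ((1 + 36 * (E : ℝ)) * G) := by ring
      _ ≤ Real.exp (-(2 * c0 * E)) * Real.exp (c0 * E) :=
          mul_le_mul_of_nonneg_left hGE (Real.exp_pos _).le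
      _ = Real.exp (-(c0 * E)) := by
          rw [← Real.exp_add]
          congr 1
          ring
  -- the sets
  set al : P → ℕ → ℝ := fun i r =>
    if i ∈ F then (if r ∈ SS z (z ^ wF) then 1 / (VM wF z * (Nat.totient r : ℝ)) else 0)
    else if i ∈ G0 then (if r = 1 then 1 else if r ∈ LA z m (q * m) then ab m q z r else 0)
    else (if r = 0 then 1 else if r ∈ LA z m (q * m) then ab m q z r else 0) with hal
  set BB : Finset (Finset P) :=
    (univ : Finset (Finset P)).filter (fun B => F ∪ G0 ⊆ B ∧ B.card ≤ 2 * K) with hBB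
  have hSS0 : ∀ r, r ∈ SS z (z ^ (E / 16)) → r ≠ 0 := by
    intro r hr
    have := (mem_SS.mp hr).1.1
    omega
  have hsub : ∀ r, r ∈ SS z (z ^ wF) → r ∈ SS z (z ^ (E / 16)) := by
    intro r hr
    rw [mem_SS] at hr ⊢
    refine ⟨⟨hr.1.1, hr.1.2.trans_le (Nat.pow_le_pow_right hz0 hw2)⟩, hr.2⟩
  have hLA0 : ∀ r, r ∈ LA z m (q * m) → r ≠ 0 := fun r hr =>
    hSS0 r (LA_sub hz0 hqm hr)
  have hLA1 : ∀ r, r ∈ LA z m (q * m) → r ≠ 1 := by
    intro r hr h5
    have h6 := (mem_LA.mp hr).2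
    have h7 : z ^ 1 ≤ z ^ m := Nat.pow_le_pow_right hz0 hm
    rw [pow_one] at h7
    omega
  have hone : 1 ∈ SS z (z ^ (E / 16)) := by
    rw [mem_SS]
    refine ⟨⟨le_rfl, ?_⟩, ?_⟩
    · exact Nat.one_lt_pow (by omega) (by omega)
    · refine ⟨squarefree_one, ?_⟩
      intro p hp hp1
      exact absurd (Nat.dvd_one.mp hp1) hp.one_lt.ne'
  have hlab : ∀ r ∈ T, ∀ i, r i = 0 ∨ r i ∈ SS z (z ^ (E / 16)) := by
    intro r hr i
    by_cases hi : i ∈ F
    · exact Or.inr (hsub _ (hT2 r hr i hi))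
    · by_cases hi' : i ∈ G0
      · rcases hT2' r hr i hi' with h5 | h5
        · rw [h5]
          exact Or.inr hone
        · exact Or.inr (LA_sub hz0 hqm h5)
      · rcases hT1 r hr i hi hi' with h5 | h5
        · exact Or.inl h5
        · exact Or.inr (LA_sub hz0 hqm h5)
  have hnzFG : ∀ r ∈ T, ∀ i ∈ F ∪ G0, r i ≠ 0 := by
    intro r hr i hi
    rcases Finset.mem_union.mp hi with hi | hi
    · exact hSS0 _ (hsub _ (hT2 r hr i hi))
    · rcases hT2' r hr i hi with h5 | h5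
      · omega
      · exact hLA0 _ h5
  have hV1 := VM_nonneg wF z
  have hXI := XI_nonneg u v Q
  have hab0 : ∀ r, 0 ≤ ab m q z r := fun r => ab_nonneg m q z r
  have hFGc : (F ∪ G0).card = F.card + G0.card := Finset.card_union_of_disjoint hFG
  have key := h2 P (fun i => (i : ℕ)) y z (z ^ (E / 16)) (z ^ (E / 4)) (2 * K) (NI u v Q b)
    (XI u v Q) (om y z) (Real.exp (-(c * E))) C2
    (fun B : Finset P => gg y z B.card) T cc al BB hz3 hXI
    ho (Real.exp_pos _).le hC21 (fun B hB => hgg B.card (by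
      rw [hBB, Finset.mem_filter] at hB
      exact hB.2.2)) hlab ?_ ?_ ?_ ?_ ?_ ?_ ?_ ?_ ?_
  · have key' : |∑ n ∈ NI u v Q b, (∑ r ∈ T, cc r * ∏ i, vv y z (r i) (n + (i : ℕ))) ^ 2
        - XI u v Q * ∑ r ∈ T, cc r ^ 2 *
          (gg y z (nz r) * ∏ i, (if r i = 0 then 1 else (Nat.totient (r i) : ℝ)))|
        ≤ XI u v Q * (Real.exp (-(c * E)) + 9 * ((2 * K : ℕ) : ℝ) ^ 2 / z) *
          ∑ B ∈ BB, (om y z * (3 * C2 ^ 2 * ∑ e ∈ SS z ((z ^ (E / 16)) ^ 2),
            (3 : ℝ) ^ e.primeFactors.card / e)) ^ B.card := key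
    refine key'.trans ?_
    have hX2 : (z ^ (E / 16)) ^ 2 = z ^ (2 * (E / 16)) := by rw [← pow_mul, mul_comm]
    have hMA := (h4 z (2 * (E / 16)) hz3 (by omega)).2.2
    rw [← hX2] at hMA
    set w : ℝ := 3 * C2 ^ 2 * ∑ e ∈ SS z ((z ^ (E / 16)) ^ 2), (3 : ℝ) ^ e.primeFactors.card / e
      with hw
    have hw0 : 0 ≤ w := by positivity
    have hwL : w ≤ Lam := by
      rw [hw, hLam]
      exact mul_le_mul_of_nonneg_left hMA (by positivity : (0 : ℝ) ≤ 3 * C2 ^ 2)
    have hsum := sumBB (F ∪ G0) (2 * K) (om y z * w) (by positivity)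
    have hnu : (Fintype.card P : ℝ) * (om y z * w) ≤ (E : ℝ) ^ 2 * Lam := by
      rw [Fintype.card_coe]
      calc (P.card : ℝ) * (om y z * w) = (P.card : ℝ) * om y z * w := by ring
        _ ≤ (E : ℝ) ^ 2 * Lam := mul_le_mul hPA hwL (by positivity) (by positivity)
    have hsum2 : ∑ B ∈ BB, (om y z * w) ^ B.card ≤ om y z ^ (F.card + G0.card) * G := by
      refine hsum.trans ?_
      rw [hG, hFGc, mul_pow, mul_assoc]
      refine mul_le_mul_of_nonneg_left ?_ (by positivity)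
      refine mul_le_mul ?_ ?_ (by positivity) (by positivity)
      · calc w ^ (F.card + G0.card) ≤ (1 + Lam) ^ (F.card + G0.card) :=
              pow_le_pow_left₀ hw0 (by linarith only [hc0p, hc2, hwL]) _
          _ ≤ (1 + Lam) ^ 4 := pow_le_pow_right₀ (by linarith only [hLam0]) (by omega)
      · exact pow_le_pow_left₀ (by positivity) (by linarith only [hnu]) _
    have hδ : 0 ≤ Real.exp (-(c * E)) + 9 * ((2 * K : ℕ) : ℝ) ^ 2 / z := by positivity
    calc XI u v Q * (Real.exp (-(c * E)) + 9 * ((2 * K : ℕ) : ℝ) ^ 2 / z) *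
          ∑ B ∈ BB, (om y z * w) ^ B.card
        ≤ XI u v Q * (Real.exp (-(c * E)) + 9 * ((2 * K : ℕ) : ℝ) ^ 2 / z) *
          (om y z ^ (F.card + G0.card) * G) :=
          mul_le_mul_of_nonneg_left hsum2 (mul_nonneg hXI hδ)
      _ = ((Real.exp (-(c * E)) + 9 * ((2 * K : ℕ) : ℝ) ^ 2 / z) * G) *
          (om y z ^ (F.card + G0.card) * XI u v Q) := by ring
      _ ≤ Real.exp (-(c0 * E)) * (om y z ^ (F.card + G0.card) * XI u v Q) :=
          mul_le_mul_of_nonneg_right hfin (mul_nonneg (by positivity) hXI)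
      _ = Real.exp (-(c0 * E)) * om y z ^ (F.card + G0.card) * XI u v Q := by ring
  · -- a label `1` only occurs on `F` and `G0`
    intro r hr s hs i hi
    by_cases hiF : i ∈ F
    · exact hnzFG s hs i (Finset.mem_union_left _ hiF)
    · by_cases hiG : i ∈ G0
      · exact hnzFG s hs i (Finset.mem_union_right _ hiG)
      · exfalso
        rcases hT1 r hr i hiF hiG with h5 | h5
        · omega
        · exact hLA1 _ h5 hi
  · -- size
    intro r hr
    calc (∏ i, max 1 (r i)) ^ 2 ≤ (z ^ (2 * (E / 16))) ^ 2 := Nat.pow_le_pow_left (hT4 r hr) 2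
      _ = z ^ (2 * (E / 16) * 2) := by rw [← pow_mul]
      _ ≤ z ^ (E / 4) := Nat.pow_le_pow_right hz0 (by omega)
  · -- supports
    intro r hr s hs
    rw [hBB, Finset.mem_filter]
    refine ⟨Finset.mem_univ _, ?_, ?_⟩
    · intro i hi
      rw [Finset.mem_filter]
      exact ⟨Finset.mem_univ _, Or.inl (hnzFG r hr i hi)⟩
    · rw [Finset.filter_or]
      refine (Finset.card_union_le _ _).trans ?_
      have h5 := hT3 r hr
      have h6 := hT3 s hs
      unfold nz at h5 h6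
      omega
  · intro B hB
    rw [hBB, Finset.mem_filter] at hB
    exact hB.2.2
  · -- nonnegativity
    intro i r
    rw [hal]
    have h5 := hab0 r
    simp only
    split_ifs <;> positivity
  · intro i
    rw [hal]
    simp only
    by_cases hi : i ∈ F
    · rw [if_pos hi, if_neg (fun h5 => hSS0 0 (hsub _ h5) rfl)]
      norm_num
    · rw [if_neg hi]
      by_cases hi' : i ∈ G0
      · rw [if_pos hi', if_neg (by norm_num), if_neg (fun h5 => hLA0 0 h5 rfl)]
        norm_num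
      · rw [if_neg hi']
        simp
  · -- the coefficients
    intro r hr
    refine (hT5 r hr).trans (le_of_eq (Finset.prod_congr rfl fun i _ => ?_))
    rw [hal]
    simp only
    by_cases hi : i ∈ F
    · rw [if_pos hi, if_pos hi, if_pos (hT2 r hr i hi)]
    · rw [if_neg hi, if_neg hi]
      by_cases hi' : i ∈ G0
      · rw [if_pos hi', if_pos hi']
        rcases hT2' r hr i hi' with h5 | h5
        · rw [if_pos h5, if_pos h5]
        · rw [if_neg (hLA1 _ h5), if_neg (hLA1 _ h5), if_pos h5]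
      · rw [if_neg hi', if_neg hi']
        rcases hT1 r hr i hi hi' with h5 | h5
        · rw [if_pos h5, if_pos h5]
        · rw [if_neg (hLA0 _ h5), if_neg (hLA0 _ h5), if_pos h5]
  · -- divisor sums
    intro i d hd
    obtain ⟨hc1, _⟩ := hCBa d hd
    have hLAsum : ∑ r ∈ (SS z (z ^ (E / 16))).filter (fun r => d ∣ r),
        (if r ∈ LA z m (q * m) then ab m q z r else 0)
        = ∑ r ∈ (LA z m (q * m)).filter (fun r => d ∣ r), ab m q z r := by
      rw [← Finset.sum_filter]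
      refine Finset.sum_congr ?_ fun _ _ => rfl
      ext r
      simp only [Finset.mem_filter]
      constructor
      · rintro ⟨⟨_, h7⟩, h8⟩
        exact ⟨h8, h7⟩
      · rintro ⟨h7, h8⟩
        exact ⟨⟨LA_sub hz0 hqm h7, h8⟩, h7⟩
    by_cases hi : i ∈ F
    · refine le_trans ?_ hC2C
      have h5 : ∑ r ∈ (SS z (z ^ (E / 16))).filter (fun r => d ∣ r), al i r
          = 1 / VM wF z * ∑ r ∈ (SS z (z ^ wF)).filter (fun r => d ∣ r),
            1 / (Nat.totient r : ℝ) := by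
        have h6 : ∀ r ∈ (SS z (z ^ (E / 16))).filter (fun r => d ∣ r), al i r =
            if r ∈ SS z (z ^ wF) then 1 / (VM wF z * (Nat.totient r : ℝ)) else 0 := by
          intro r hr
          rw [hal]
          simp only
          rw [if_pos hi]
        rw [Finset.sum_congr rfl h6, ← Finset.sum_filter, Finset.mul_sum]
        refine Finset.sum_congr ?_ fun r _ => ?_
        · ext r
          simp only [Finset.mem_filter]
          constructor
          · rintro ⟨⟨_, h7⟩, h8⟩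
            exact ⟨h8, h7⟩
          · rintro ⟨h7, h8⟩
            exact ⟨⟨hsub _ h7, h8⟩, h7⟩
        · rw [one_div_mul_one_div]
      rw [h5]
      by_cases hd2 : d ∈ SS z (z ^ wF)
      · obtain ⟨_, hc2⟩ := hCBb d hd2
        have h6 : ∑ r ∈ SS z (z ^ wF), 1 / (Nat.totient r : ℝ) = VM wF z := rfl
        rw [h6] at hc2
        rcases hV1.eq_or_lt with h7 | h7
        · rw [← h7]
          simp
          linarith
        · calc (d : ℝ) * (1 / VM wF z * ∑ r ∈ (SS z (z ^ wF)).filter (fun r => d ∣ r),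
              1 / (Nat.totient r : ℝ))
              = ((d : ℝ) * ∑ r ∈ (SS z (z ^ wF)).filter (fun r => d ∣ r),
              1 / (Nat.totient r : ℝ)) / VM wF z := by ring
            _ ≤ C * VM wF z / VM wF z := by gcongr
            _ = C := by field_simp
      · have h7 : (SS z (z ^ wF)).filter (fun r => d ∣ r) = ∅ := by
          rw [Finset.filter_eq_empty_iff]
          intro r hr hdr
          apply hd2
          rw [mem_SS] at hr hd ⊢
          exact ⟨⟨hd.1.1, (Nat.le_of_dvd hr.1.1 hdr).trans_lt hr.1.2⟩, hd.2⟩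
        rw [h7]
        simp
        linarith only [hC, hc0p, hc2]
    · by_cases hi' : i ∈ G0
      · have h6 : ∀ r ∈ (SS z (z ^ (E / 16))).filter (fun r => d ∣ r), al i r =
            (if r = 1 then 1 else 0) + (if r ∈ LA z m (q * m) then ab m q z r else 0) := by
          intro r hr
          rw [hal]
          simp only
          rw [if_neg hi, if_pos hi']
          by_cases h7 : r = 1
          · rw [if_pos h7, if_pos h7, if_neg (fun h8 => hLA1 r h8 h7), add_zero]
          · rw [if_neg h7, if_neg h7, zero_add]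
        rw [Finset.sum_congr rfl h6, Finset.sum_add_distrib, hLAsum, mul_add, hC2, add_comm]
        refine add_le_add hc1 ?_
        by_cases hd1 : d = 1
        · subst hd1
          rw [Finset.sum_ite_eq' _ 1 (fun _ => (1 : ℝ))]
          split_ifs <;> norm_num
        · have h7 : ∑ r ∈ (SS z (z ^ (E / 16))).filter (fun r => d ∣ r),
              (if r = 1 then (1 : ℝ) else 0) = 0 := by
            refine Finset.sum_eq_zero fun r hr => ?_
            rw [if_neg]
            rintro rfl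
            exact hd1 (Nat.dvd_one.mp (Finset.mem_filter.mp hr).2)
          rw [h7, mul_zero]
          norm_num
      · refine le_trans ?_ hC2C
        refine le_of_eq_of_le ?_ hc1
        congr 1
        rw [← hLAsum]
        refine Finset.sum_congr rfl ?_
        intro r hr
        rw [hal]
        simp only
        rw [if_neg hi, if_neg hi', if_neg (hSS0 r (Finset.mem_filter.mp hr).1)]
  · -- counting
    intro d hd hD hdB
    rw [hBB, Finset.mem_filter] at hdB
    exact tlg (Real.exp_pos _).le hXI hPy (fun B hB hBK d hd hD =>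
      hTL B hB ((Nat.pow_le_pow_left hBK 2).trans hK2) d hd hD |> fun hh =>
        ⟨fun hcc => (hh.1 hcc).1, hh.2⟩) d hd hD hdB.2.2 (fun k hk => (hgg k hk).2)

end Pool.Agent.Helper16.TU
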